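import Pool.Agent.H297.FT.Vas

/-!
# Where Vassiliev invariants of one order can fail to detect knottedness in families of full twists

`Pool.Agent.H891R2.Jones.Diagram` (starting library) contains the definitions `Diagram P` (oriented
link diagrams, planar or not), `Diagram.fPoly` (the normalised bracket `(-A^{-3})^{w(D)} ⟨D⟩`) and
`Outer m` (the part of an oriented diagram outside a box through which `m` strands run).
`Pool.Agent.H297.FT.Defs` adds: `Boxes m k` (`k` boxes, the box `e` on the consecutive strands
`off e, …, off e + size e - 1`; they may overlap), `family O B a` for `a ∈ ℤ^k` (the closed diagram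
with `a e` full twists on the `size e` strands of the box `e`, one box above the other), `lk`
(the number of the strands of a box directed upwards minus the number of those directed downwards),
the linear forms `wt` on `ℤ^k`, `w_s(a) = ∑ e, (s_e (s_e + 2) - 3 ℓ_e²) a_e` for
`s_e ∈ {n_e, n_e - 2, …} , s_e ≥ 0`, and `w_∞ = 0`, and the subgroup
`Lam E = {a | w_s(a) = w_t(a) for all (s, t) ∈ E}` of `ℤ^k`.

Vassiliev invariants (starting library `Pool.Agent.H832R3.VJ.Defs`): `Dia` (an oriented diagram with
the finite set of its marked points), `Separated d X Y` (some integer valued Vassiliev invariant of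
oriented links of order at most `d` has different values on `X` and `Y`), `unknot`.
`dia O B a` is the diagram `family O B a` as an element of `Dia`.
-/

set_option autoImplicit false

namespace Pool.Agent.Results.MP_5f6b43_gt.FullTwistLocus

open Pool.Agent.H891R2.Jones Pool.Agent.H297.FT Pool.Agent.H832R3.VJ

/-- Let `D(a)`, `a ∈ ℤ^k`, be the diagrams obtained from an oriented link diagram by putting `a_e`
full twists into `k` boxes, the box `e` on `n_e` strands with linking number `ℓ_e`.  Then all of
them are closed oriented diagrams, and there are a number `d` and a finite union `W` of cosets of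
subgroups of the form `Λ(E) = {a | w_s(a) = w_t(a) for all (s, t) ∈ E}` of `ℤ^k` such that `D(a)` has
the normalised bracket `1` exactly for `a ∈ W`, and `D(a)` is separated from the unknot by Vassiliev
invariants of order at most `d` for all `a ∉ W`.  In particular the set of the `a` for which `D(a)`
is not separated from the unknot by Vassiliev invariants of order at most `d` is finite, or `W`
contains a line `b + ℤ v`, `v ≠ 0`. -/
theorem result {m k : ℕ} (hm : 0 < m) (O : Outer m) (hO : O.close.IsClosed) (B : Boxes m k) :
    (∀ a : Fin k → ℤ, (family O B a).IsClosed) ∧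
    ∃ (d : ℕ) (F : Finset ((Fin k → ℤ) × Finset (Option (Ind B) × Option (Ind B)))),
      {a | (family O B a).fPoly = 1} = ⋃ p ∈ F, {a | a - p.1 ∈ Lam O B p.2} ∧
      (∀ a : Fin k → ℤ, a ∉ ⋃ p ∈ F, {a | a - p.1 ∈ Lam O B p.2} →
        Separated d (dia O B a) unknot) ∧
      ({a : Fin k → ℤ | ¬ Separated d (dia O B a) unknot}.Finite ∨ ∃ b v : Fin k → ℤ, v ≠ 0 ∧
        ∀ t : ℤ, (family O B (b + t • v)).fPoly = 1) := by
  obtain ⟨d, hd⟩ := uniform_unknot hm O B
  obtain ⟨F, hF⟩ := structure_thm' hm O B
  refine ⟨family_closed O hO B, d, F, hF, ?_, ?_⟩
  · intro a ha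
    rw [← hF] at ha
    exact hd a ha
  · rcases finite_or_line hm O B with h | h
    · left
      refine h.subset ?_
      intro a ha
      by_contra hne
      exact ha (hd a hne)
    · exact Or.inr h

end Pool.Agent.Results.MP_5f6b43_gt.FullTwistLocus
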