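import Pool.Agent.H297.FT.Vas

/-!
# Vassiliev invariants of one order detect knottedness in families with several full twists

`Pool.Agent.H891R2.Jones.Diagram` (starting library) contains the definitions `Diagram P` (oriented
link diagrams, planar or not), `Diagram.fPoly` (the normalised bracket `(-A^{-3})^{w(D)} ⟨D⟩`) and
`Outer m` (the part of an oriented diagram outside a box through which `m` strands run).
`Pool.Agent.H297.FT.Defs` adds: `Boxes m k` (`k` boxes, the box `e` on the consecutive strands
`off e, …, off e + size e - 1`; they may overlap), `family O B a` for `a ∈ ℤ^k` (the closed diagram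
with `a e` full twists on the `size e` strands of the box `e`, one box above the other), `lk`
(the number of the strands of a box directed upwards minus the number of those directed downwards),
`wt` (the linear forms `w_s(v) = ∑ e, (s_e (s_e + 2) - 3 ℓ_e²) v_e` with `s_e = n_e - 2 r_e ≥ 0`),
`mNum v` (the number of the distinct nonzero values among the `w_s(v)`),
`Exceptional n l` (`3 l² + 1 = (s + 1)²` for some `0 ≤ s ≤ n`) and
`hNum n l` (`⌊n/2⌋` if `n, l` is exceptional, otherwise `⌊n/2⌋ + 1`).

Vassiliev invariants (starting library `Pool.Agent.H832R3.VJ.Defs`): `Dia` (an oriented diagram with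
the finite set of its marked points), `Separated d X Y` (some integer valued Vassiliev invariant of
oriented links of order at most `d` has different values on `X` and `Y`), `unknot`.
`dia O B a` is the diagram `family O B a` as an element of `Dia`.
-/

set_option autoImplicit false

namespace Pool.Agent.Results.MP_5f6b43_gt.FullTwistOrder

open Pool.Agent.H891R2.Jones Pool.Agent.H297.FT Pool.Agent.H832R3.VJ

open Classical in
/-- Let `D(a)`, `a ∈ ℤ^k`, be the diagrams obtained from an oriented link diagram by putting `a_e`
full twists into `k` boxes, the box `e` on `n_e` strands with linking number `ℓ_e`.  Then all of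
them are closed oriented diagrams, and there is a number `d` (independent of `a`) such that

* every `D(a)` whose normalised bracket is not `1` is separated from the unknot by Vassiliev
  invariants of order at most `d`;
* for every line `b + ℤ v` of `ℤ^k`, either `w_s(v) = 0` for some `s` and the normalised bracket of
  `D(b + t v)` is `1` for all integers `t`, or all but at most `mNum v` of the links `D(b + t v)` are
  separated from the unknot by Vassiliev invariants of order at most `d`;
* either all boxes are exceptional and the normalised bracket of all `D(a)` is `1`, or for all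
  finite sets `A_1, …, A_k` of integers at most `∑ e, h_e ∏_{e' ≠ e} |A_{e'}|` of the links `D(a)`,
  `a ∈ A_1 × ⋯ × A_k`, are not separated from the unknot by Vassiliev invariants of order at most
  `d`. -/
theorem result {m k : ℕ} (hm : 0 < m) (O : Outer m) (hO : O.close.IsClosed) (B : Boxes m k) :
    (∀ a : Fin k → ℤ, (family O B a).IsClosed) ∧
    ∃ d : ℕ,
      (∀ a : Fin k → ℤ, (family O B a).fPoly ≠ 1 → Separated d (dia O B a) unknot) ∧
      (∀ b v : Fin k → ℤ,
        ((∃ r : Ind B, wt O B (some r) v = 0) ∧ ∀ t : ℤ, (family O B (b + t • v)).fPoly = 1) ∨
        ({t : ℤ | ¬ Separated d (dia O B (b + t • v)) unknot}.Finite ∧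
          {t : ℤ | ¬ Separated d (dia O B (b + t • v)) unknot}.ncard ≤ mNum O B v)) ∧
      (((∀ e, Exceptional (B.size e) (lk O (B.off e) (B.size e))) ∧
          ∀ a, (family O B a).fPoly = 1) ∨
        ∀ A : Fin k → Finset ℤ,
          ((Fintype.piFinset A).filter (fun a => ¬ Separated d (dia O B a) unknot)).card ≤
            ∑ e, hNum (B.size e) (lk O (B.off e) (B.size e)) *
              ∏ e' ∈ Finset.univ.erase e, (A e').card) := by
  obtain ⟨d, hd1, hd2⟩ := vassiliev_thm hm O B
  refine ⟨family_closed O hO B, d, hd1, fun b v => ?_, hd2⟩
  rcases line_law hm O B b v with h | ⟨h1, h2⟩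
  · exact Or.inl h
  · right
    have hsub : {t : ℤ | ¬ Separated d (dia O B (b + t • v)) unknot} ⊆
        {t : ℤ | (family O B (b + t • v)).fPoly = 1} := by
      intro t ht
      by_contra hne
      exact ht (hd1 _ hne)
    exact ⟨h1.subset hsub, (Set.ncard_le_ncard hsub h1).trans h2⟩

end Pool.Agent.Results.MP_5f6b43_gt.FullTwistOrder
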