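import Pool.Agent.H832R3.VJ.Fin
import Pool.Agent.H953R3.JT.Near

/-!
# Vassiliev invariants of bounded order detect twisted knots: a bound polynomial in the number of
twist regions

Diagrams: `Pool.Agent.H891R2.Jones.Diagram` (`Crossing`, `Diagram`: oriented link diagrams with
marked points; `Diagram.IsClosed`) and `Pool.Agent.H891R2.MT.Defs` (`Ribbon k`: a ribbon graph with
`k` edges, given by the rotation system on its `2 k` darts; `Ribbon.verts`, `Ribbon.comps`;
`Ribbon.Planar`: a connected plane graph; `Ribbon.link n`: the unoriented link diagram which is the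
boundary of the surface made of one disc for every vertex and, for every edge `e`, a band with `n e`
half twists, that is, a row of `|n e|` crossings; `Orients D U`: `D` is the unoriented diagram `U`
with directions).

Vassiliev invariants: `Pool.Agent.H832R3.VJ.Defs` (`Dia`: an oriented diagram with the finite set of
its marked points; `Move`: relabelling, subdivision of strands and the Reidemeister moves; `sing`:
extension to diagrams with double points by the Vassiliev skein relation; `IsVassiliev n v`: `v` is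
an invariant of oriented links of order at most `n`; `Separated d X Y`: some integer valued
Vassiliev invariant of order at most `d` has different values on `X` and `Y`; `unknot`).
-/

set_option autoImplicit false

namespace Pool.Agent.Results.MP_5f6b43_gt.PolynomialOrder

open Finset Pool.Agent.H891R2.Jones Pool.Agent.H891R2.MT Pool.Agent.H832R3.VJ Pool.Agent.H953R3.JT

open Classical in
/-- Let `Γ` be a connected plane graph with `k` edges and at least two independent cycles
(`verts + 1 ≤ k`), and let `D(n)`, `n ∈ ℤ^k`, be the link diagram with `|n e|` crossings on the edge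
`e`.

* Let `A e ⊂ ℤ` be arbitrary finite sets with at least `M` elements. Among the links `D(n)`,
  `n ∈ ∏ A e`, the proportion of those which, for some directions, are not separated from the unknot
  by the Vassiliev invariants of order at most `(2 ^ k + 1) * (8 * k + 9)` is at most
  `8 k² (16 k + 21)² / M²`.
* This happens for at most `8 k² (16 k + 21)² (2 N + 1)^(k-2)` of the `(2 N + 1)^k` diagrams `D(n)` with
  `|n e| ≤ N` for all `e`. -/
theorem result (k : ℕ) (Γ : Ribbon k) (hΓ : Γ.Planar) (hk : Γ.verts + 1 ≤ k) :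
    (∀ (A : Fin k → Finset ℤ) (M : ℕ), (∀ e, M ≤ (A e).card) →
      M ^ 2 * #{n ∈ Fintype.piFinset A | ∃ D : Diagram (Ribbon.Pt n),
          Orients D (Γ.link n) ∧ D.IsClosed ∧
          ¬ Separated ((2 ^ k + 1) * (8 * k + 9)) ⟨_, inferInstance, D⟩ unknot} ≤
        8 * k ^ 2 * (16 * k + 21) ^ 2 * ∏ e, (A e).card) ∧
    ∀ N : ℕ, {n : Fin k → ℤ | (∀ e, |n e| ≤ N) ∧ ∃ D : Diagram (Ribbon.Pt n),
        Orients D (Γ.link n) ∧ D.IsClosed ∧
        ¬ Separated ((2 ^ k + 1) * (8 * k + 9)) ⟨_, inferInstance, D⟩ unknot}.ncard ≤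
      8 * k ^ 2 * (16 * k + 21) ^ 2 * (2 * N + 1) ^ (k - 2) := by
  have hk0 : 0 < k := by omega
  have h1 : ∀ (A : Fin k → Finset ℤ) (M : ℕ), (∀ e, M ≤ (A e).card) →
      M ^ 2 * #{n ∈ Fintype.piFinset A | ∃ D : Diagram (Ribbon.Pt n),
          Orients D (Γ.link n) ∧ D.IsClosed ∧
          ¬ Separated ((2 ^ k + 1) * (8 * k + 9)) ⟨_, inferInstance, D⟩ unknot} ≤
        8 * k ^ 2 * (16 * k + 21) ^ 2 * ∏ e, (A e).card := by
    intro A M hM
    have h := count_span Γ hΓ hk A M hM 0
    rw [mul_zero, add_zero] at h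
    refine le_trans (Nat.mul_le_mul_left _ (Finset.card_le_card ?_)) h
    intro n hn
    rw [Finset.mem_filter] at hn ⊢
    obtain ⟨hnA, D, hD, hc, h⟩ := hn
    exact ⟨hnA, detect hk0 Γ hΓ n D hD hc h⟩
  refine ⟨h1, fun N => ?_⟩
  have hk2 : 2 ≤ k := by
    rcases Nat.lt_or_ge k 2 with h | h
    · exfalso
      have h2 : Γ.verts = 0 := by omega
      have h3 : 0 < Γ.verts := by
        unfold Ribbon.verts
        have : Nonempty (Quot (fun x y : Fin k × Bool => Γ.rot x = y)) :=
          ⟨Quot.mk _ (⟨0, hk0⟩, true)⟩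
        have : Finite (Quot (fun x y : Fin k × Bool => Γ.rot x = y)) := Quot.finite _
        exact Nat.card_pos
      omega
    · exact h
  have h := h1 (fun _ => Finset.Icc (-(N : ℤ)) N) (2 * N + 1) (fun e => by
    rw [Int.card_Icc]
    omega)
  have hc : ∏ e : Fin k, (Finset.Icc (-(N : ℤ)) N).card = (2 * N + 1) ^ k := by
    rw [Finset.prod_const, Finset.card_univ, Fintype.card_fin, Int.card_Icc]
    congr 1
    omega
  rw [hc] at h
  have hset : {n : Fin k → ℤ | (∀ e, |n e| ≤ N) ∧ ∃ D : Diagram (Ribbon.Pt n),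
        Orients D (Γ.link n) ∧ D.IsClosed ∧
        ¬ Separated ((2 ^ k + 1) * (8 * k + 9)) ⟨_, inferInstance, D⟩ unknot} =
      (({n ∈ Fintype.piFinset (fun _ : Fin k => Finset.Icc (-(N : ℤ)) N) |
        ∃ D : Diagram (Ribbon.Pt n), Orients D (Γ.link n) ∧ D.IsClosed ∧
          ¬ Separated ((2 ^ k + 1) * (8 * k + 9)) ⟨_, inferInstance, D⟩ unknot} :
        Finset (Fin k → ℤ)) : Set (Fin k → ℤ)) := by
    ext n
    simp only [Set.mem_ofPred_eq, Finset.coe_filter, Fintype.mem_piFinset, Finset.mem_Icc, abs_le]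
  rw [hset, Set.ncard_coe_finset]
  have hpow : (2 * N + 1) ^ k = (2 * N + 1) ^ 2 * (2 * N + 1) ^ (k - 2) := by
    rw [← pow_add]
    congr 1
    omega
  rw [hpow] at h
  have hpos : 0 < (2 * N + 1) ^ 2 := by positivity
  refine Nat.le_of_mul_le_mul_left ?_ hpos
  calc _ ≤ _ := h
    _ = _ := by ring

end Pool.Agent.Results.MP_5f6b43_gt.PolynomialOrder
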